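import Mathlib
import Pool.Agent.V1166.UD.Tri

set_option autoImplicit false

namespace Pool.Agent.Results.MP_529953_al.SolvableInfiniteUdim

/-- Amenability of the discrete group `G`: there is a finitely additive probability measure on all
subsets of `G` which is invariant under left translations. -/
def Amenable (G : Type) [Group G] : Prop :=
  ∃ m : Set G → ℝ, (∀ A, 0 ≤ m A) ∧ m Set.univ = 1 ∧
    (∀ A B, Disjoint A B → m (A ∪ B) = m A + m B) ∧ ∀ (g : G) (A : Set G), m ((g * ·) '' A) = m A

/-- The right ideals of the group algebra `k[G]`. -/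
abbrev RightIdeal (k : Type*) [Field k] (G : Type) [Group G] :=
  Submodule (MonoidAlgebra k G)ᵐᵒᵖ (MonoidAlgebra k G)

/-- The right uniform dimension of `k[G]`: the supremum of the numbers `n` such that `k[G]` contains
a direct sum of `n` nonzero right ideals. -/
noncomputable def udim (k : Type*) [Field k] (G : Type) [Group G] : ℕ∞ :=
  sSup {d : ℕ∞ | ∃ n : ℕ, d = n ∧
    ∃ I : Fin n → RightIdeal k G, (∀ i, I i ≠ ⊥) ∧ iSupIndep I}

/-- For every prime `p` there is a finitely generated solvable (of derived length at most `3`), hence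
amenable, group `G` all of whose finite subgroups are `p`-groups, so that the only finite subgroup of
order prime to `p` is the trivial one, and such that for every field `k` (in particular for every
field of characteristic `p`) the group algebra `k[G]` contains an infinite direct sum of nonzero right
ideals and has infinite uniform dimension. -/
theorem result.{u} (p : ℕ) (hp : p.Prime) :
    ∃ (G : Type) (_ : Group G), Group.FG G ∧ derivedSeries G 3 = ⊥ ∧ Amenable G ∧
      (∀ F : Subgroup G, Finite F → IsPGroup p F) ∧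
      (∀ F : Subgroup G, Finite F → ¬ p ∣ Nat.card F → Nat.card F ≤ 1) ∧
      ∀ (k : Type u) [Field k],
        (∃ I : ℕ → RightIdeal k G, (∀ i, I i ≠ ⊥) ∧ iSupIndep I) ∧ udim k G = ⊤ := by
  classical
  have : NeZero p := ⟨hp.ne_zero⟩
  have : Fact p.Prime := ⟨hp⟩
  have hsol : derivedSeries (V1166.UD.Tri.GG p) 3 = ⊥ := by
    have h := V1166.UD.Tri.derived3 p
    have h1 : (derivedSeries (V1166.UD.Tri.GG p) 3).map (V1166.UD.Tri.GG p).subtype ≤
        derivedSeries (V1166.UD.Tri p) 3 := map_derivedSeries_le_derivedSeries _ 3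
    rw [h, le_bot_iff, Subgroup.map_eq_bot_iff_of_injective _ (Subgroup.subtype_injective _)] at h1
    exact h1
  refine ⟨V1166.UD.Tri.GG p, inferInstance, ?_, hsol, ?_, ?_, ?_, ?_⟩
  · rw [Group.fg_iff_subgroup_fg, Subgroup.fg_iff]
    exact ⟨_, rfl, Set.toFinite _⟩
  · exact Helper240.Amen.amenable_of_solvable _ ⟨3, hsol⟩
  · intro F hF
    exact V1166.UD.Tri.pgroup F
  · intro F hF hpF
    obtain ⟨n, hn⟩ := IsPGroup.iff_card.mp (V1166.UD.Tri.pgroup F)
    rcases Nat.eq_zero_or_pos n with h0 | h0
    · rw [hn, h0, pow_zero]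
    · exact absurd (hn ▸ dvd_pow_self p h0.ne') hpF
  · intro k _
    have hind := V1166.UD.Tri.indep hp k
    have hne : ∀ i, V1166.UD.inv k (V1166.UD.Tri.F p i) ≠ ⊥ := fun i => V1166.UD.inv_ne_bot _
    refine ⟨⟨_, hne, hind⟩, ?_⟩
    rw [ENat.eq_top_iff_forall_ge]
    intro n
    apply le_sSup
    exact ⟨n, rfl, fun i : Fin n => V1166.UD.inv k (V1166.UD.Tri.F p i), fun i => hne _,
      hind.comp Fin.val_injective⟩

end Pool.Agent.Results.MP_529953_al.SolvableInfiniteUdim
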